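import Mathlib
import Pool.Agent.Y248.FE.Stm
import Pool.Agent.Y71.FB.GlobA
set_option autoImplicit false

/-! # Project FE: a Schur estimate between two measures -/

namespace Pool.Agent.Y48.FE

open MeasureTheory Set Metric Complex Filter
open scoped ENNReal RealInnerProductSpace Topology FourierTransform Pointwise
open Pool.Agent.H789R2.FR (E sg T)
open Pool.Agent.H438R2.RZ (Bump)
open Pool.Agent.Y248.BA
open Pool.Agent.Y248.FB Pool.Agent.Y248.FC Pool.Agent.Y248.FD Pool.Agent.Y248.FE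

theorem sigmaC {n : ℕ} {α D : ℝ} {μ : Measure (E n)} (hμ : DimC α D μ) : SigmaFinite μ := by
  have : IsLocallyFiniteMeasure μ := by
    refine ⟨fun x => ⟨closedBall x 1, closedBall_mem_nhds x one_pos, ?_⟩⟩
    exact lt_of_le_of_lt (hμ x 1 le_rfl) ENNReal.ofReal_lt_top
  infer_instance

theorem massC {n : ℕ} {D : ℝ} (hD : 0 < D) {μ : Measure (E n)} (hμ : DimC n D μ) (y : E n) :
    ∫⁻ x : E n, ENNReal.ofReal (Jw (x - y)) ∂μ ≤ ENNReal.ofReal (D * 2 ^ (n + 1)) := by
  have h := Pool.Agent.Y71.FB.Jw_mass (α := (n : ℝ)) le_rfl (Dim.of_smul hD hμ) y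
  rw [lintegral_smul_measure, smul_eq_mul] at h
  calc ∫⁻ x : E n, ENNReal.ofReal (Jw (x - y)) ∂μ
      = ENNReal.ofReal D * (ENNReal.ofReal D⁻¹ * ∫⁻ x : E n, ENNReal.ofReal (Jw (x - y)) ∂μ) := by
        rw [← mul_assoc, ← ENNReal.ofReal_mul hD.le, mul_inv_cancel₀ hD.ne', ENNReal.ofReal_one, one_mul]
    _ ≤ ENNReal.ofReal D * ENNReal.ofReal (2 ^ (n + 1)) := by gcongr
    _ = _ := by rw [← ENNReal.ofReal_mul hD.le]

/-- Schur's estimate between two measures -/
theorem schur2 {n : ℕ} {D : ℝ} (hD : 0 < D) {μ₁ μ₂ : Measure (E n)}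
    (hμ₁ : DimC n D μ₁) (hμ₂ : DimC n D μ₂) (G : E n → ℝ≥0∞) (hG : Measurable G) (p : ℝ) (hp : 1 ≤ p) :
    ∫⁻ x : E n, (∫⁻ y : E n, ENNReal.ofReal (Jw (x - y)) * G y ∂μ₁) ^ p ∂μ₂ ≤
      ENNReal.ofReal ((D * 2 ^ (n + 1)) ^ p) * ∫⁻ y, G y ^ p ∂μ₁ := by
  have hs1 := sigmaC hμ₁
  have hs2 := sigmaC hμ₂
  set F : E n → ℝ≥0∞ := fun x => ENNReal.ofReal (Jw x) with hFd
  set K : ℝ≥0∞ := ENNReal.ofReal (D * 2 ^ (n + 1)) with hK
  have hF : Measurable F := Jw_cont.measurable.ennreal_ofReal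
  have hmass : ∀ x : E n, ∫⁻ y, F (x - y) ∂μ₁ ≤ K := by
    intro x
    refine le_trans (le_of_eq ?_) (massC hD hμ₁ x)
    refine lintegral_congr fun y => ?_
    simp only [hFd, Jw]
    rw [norm_sub_rev]
  have hconv : ∀ H : E n → ℝ≥0∞, Measurable H →
      ∫⁻ x : E n, (∫⁻ y : E n, F (x - y) * H y ∂μ₁) ∂μ₂ ≤ K * ∫⁻ y, H y ∂μ₁ := by
    intro H hH
    have hm : Measurable fun z : E n × E n => F (z.1 - z.2) * H z.2 :=
      (hF.comp (measurable_fst.sub measurable_snd)).mul (hH.comp measurable_snd)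
    rw [lintegral_lintegral_swap hm.aemeasurable, ← lintegral_const_mul _ hH]
    refine lintegral_mono fun y => ?_
    have hFy : Measurable fun x : E n => F (x - y) := hF.comp (measurable_id.sub_const y)
    rw [lintegral_mul_const _ hFy]
    exact mul_le_mul' (massC hD hμ₂ y) le_rfl
  rcases hp.eq_or_lt with rfl | hp1
  · simp only [ENNReal.rpow_one, Real.rpow_one]
    exact hconv G hG
  · have hpq : p.HolderConjugate (Real.conjExponent p) := Real.HolderConjugate.conjExponent hp1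
    set q := Real.conjExponent p with hq
    have hq0 : 0 < q := hpq.symm.pos
    have hp0 : 0 < p := hpq.pos
    have hpq1 : p / q = p - 1 := by
      have := hpq.inv_add_inv_eq_one
      have h2 : p / q = p * q⁻¹ := div_eq_mul_inv _ _
      have h3 : q⁻¹ = 1 - p⁻¹ := by linarith
      rw [h2, h3, mul_sub, mul_one, mul_inv_cancel₀ hp0.ne']
    have h1 : ∀ x : E n, (∫⁻ y : E n, F (x - y) * G y ∂μ₁) ^ p ≤
        K ^ (p / q) * ∫⁻ y : E n, F (x - y) * G y ^ p ∂μ₁ := by
      intro x
      have hFx : Measurable fun y : E n => F (x - y) := hF.comp (measurable_const.sub measurable_id)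
      have e1 : ∀ y : E n, F (x - y) * G y =
          (F (x - y) ^ (1 / p) * G y) * F (x - y) ^ (1 / q) := by
        intro y
        have : F (x - y) = F (x - y) ^ (1 / p) * F (x - y) ^ (1 / q) := by
          rw [← ENNReal.rpow_add_of_nonneg _ _ (by positivity) (by positivity)]
          have : 1 / p + 1 / q = 1 := by
            have := hpq.inv_add_inv_eq_one
            rw [one_div, one_div, this]
          rw [this, ENNReal.rpow_one]
        conv_lhs => rw [this]
        ring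
      have h2 := ENNReal.lintegral_mul_le_Lp_mul_Lq μ₁ hpq
        (f := fun y => F (x - y) ^ (1 / p) * G y) (g := fun y => F (x - y) ^ (1 / q))
        ((hFx.pow_const _).mul hG).aemeasurable (hFx.pow_const _).aemeasurable
      have e2 : (∫⁻ y : E n, F (x - y) * G y ∂μ₁) ^ p =
          (∫⁻ y : E n, ((fun y => F (x - y) ^ (1 / p) * G y) * fun y => F (x - y) ^ (1 / q)) y ∂μ₁) ^ p := by
        congr 1
        refine lintegral_congr fun y => ?_
        rw [e1]; rfl
      rw [e2]
      refine (ENNReal.rpow_le_rpow h2 hp0.le).trans ?_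
      rw [ENNReal.mul_rpow_of_nonneg _ _ hp0.le, ← ENNReal.rpow_mul, ← ENNReal.rpow_mul,
        one_div_mul_cancel hp0.ne', ENNReal.rpow_one, mul_comm]
      have e3 : ∀ y : E n, (F (x - y) ^ (1 / q)) ^ q = F (x - y) := by
        intro y
        rw [← ENNReal.rpow_mul, one_div_mul_cancel hq0.ne', ENNReal.rpow_one]
      have e4 : ∀ y : E n, (F (x - y) ^ (1 / p) * G y) ^ p = F (x - y) * G y ^ p := by
        intro y
        rw [ENNReal.mul_rpow_of_nonneg _ _ hp0.le, ← ENNReal.rpow_mul,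
          one_div_mul_cancel hp0.ne', ENNReal.rpow_one]
      simp only [e3, e4]
      refine mul_le_mul' ?_ le_rfl
      have e5 : 1 / q * p = p / q := by field_simp
      rw [e5]
      exact ENNReal.rpow_le_rpow (hmass x) (by positivity)
    calc ∫⁻ x : E n, (∫⁻ y : E n, F (x - y) * G y ∂μ₁) ^ p ∂μ₂
        ≤ ∫⁻ x : E n, K ^ (p / q) * (∫⁻ y : E n, F (x - y) * G y ^ p ∂μ₁) ∂μ₂ :=
          lintegral_mono h1
      _ = K ^ (p / q) * ∫⁻ x : E n, (∫⁻ y : E n, F (x - y) * G y ^ p ∂μ₁) ∂μ₂ := by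
          rw [lintegral_const_mul]
          exact Measurable.lintegral_prod_right' (f := fun z : E n × E n =>
            F (z.1 - z.2) * G z.2 ^ p) ((hF.comp (measurable_fst.sub measurable_snd)).mul
            ((hG.pow_const _).comp measurable_snd))
      _ ≤ K ^ (p / q) * (K * ∫⁻ y, G y ^ p ∂μ₁) := by
          gcongr
          exact hconv _ (hG.pow_const _)
      _ = _ := by
          rw [← mul_assoc, hpq1]
          congr 1
          rw [hK, ENNReal.ofReal_rpow_of_pos (by positivity), ← ENNReal.ofReal_mul (by positivity)]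
          congr 1
          nth_rw 2 [← Real.rpow_one (D * 2 ^ (n + 1))]
          rw [← Real.rpow_add (by positivity)]
          congr 1; ring

end Pool.Agent.Y48.FE
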