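import Mathlib
import Pool.Agent.Y48.FE.Sch
set_option autoImplicit false

/-! # Project FE: globalisation between two measures, for a norm; crude bound -/

namespace Pool.Agent.Y48.FE

open MeasureTheory Set Metric Complex Filter
open scoped ENNReal RealInnerProductSpace Topology FourierTransform Pointwise
open Pool.Agent.H789R2.FR (E sg T)
open Pool.Agent.H438R2.RZ (Bump)
open Pool.Agent.Y248.BA
open Pool.Agent.Y248.FB Pool.Agent.Y248.FC Pool.Agent.Y248.FD Pool.Agent.Y248.FE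

section
variable {n : ℕ} (w : Seminorm ℝ (E n))

/-- balls of the norm -/
def Bw (u : E n) (ρ : ℝ) : Set (E n) := {x | w (x - u) ≤ ρ}

theorem Bw_iff (x u : E n) (ρ : ℝ) : x ∈ Bw w u ρ ↔ w (x - u) ≤ ρ := Iff.rfl

theorem Bw_closed (hw : Continuous w) (u : E n) (ρ : ℝ) : IsClosed (Bw w u ρ) :=
  isClosed_le (hw.comp (continuous_id.sub continuous_const)) continuous_const

/-- the volume of the balls -/
noncomputable def vw (ρ : ℝ) : ℝ≥0∞ := (volume : Measure (E n)) {x | w x ≤ ρ}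

theorem w_smul {c : ℝ} (hc : 0 ≤ c) (x : E n) : w (c • x) = c * w x := by
  rw [map_smul_eq_mul, Real.norm_of_nonneg hc]

theorem vw_two (ρ : ℝ) : vw w (2 * ρ) = ENNReal.ofReal (2 ^ n) * vw w ρ := by
  unfold vw
  have h1 : {x : E n | w x ≤ 2 * ρ} = (2 : ℝ) • {x : E n | w x ≤ ρ} := by
    ext x
    rw [mem_setOf_eq, mem_smul_set]
    constructor
    · intro h
      refine ⟨(1 / 2 : ℝ) • x, ?_, by rw [smul_smul]; norm_num⟩
      rw [mem_setOf_eq, w_smul w (by norm_num)]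
      linarith
    · rintro ⟨y, hy, rfl⟩
      rw [w_smul w (by norm_num)]
      rw [mem_setOf_eq] at hy
      linarith
  rw [h1, Measure.addHaar_smul_of_nonneg _ (by norm_num), finrank_euclideanSpace_fin]

theorem vw_ne_zero (hw : Continuous w) {ρ : ℝ} (hρ : 0 < ρ) : vw w ρ ≠ 0 := by
  unfold vw
  have h1 : IsOpen {x : E n | w x < ρ} := isOpen_lt hw continuous_const
  have h2 : (0 : E n) ∈ {x : E n | w x < ρ} := by
    rw [mem_setOf_eq, map_zero]; exact hρ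
  have h3 : 0 < (volume : Measure (E n)) {x : E n | w x < ρ} := h1.measure_pos _ ⟨0, h2⟩
  exact (h3.trans_le (measure_mono fun x (hx : w x < ρ) => (le_of_lt hx : w x ≤ ρ))).ne'

theorem vw_ne_top (hn : ∀ x, ‖x‖ ≤ 2 * w x) {ρ : ℝ} : vw w ρ ≠ ∞ := by
  unfold vw
  refine ne_top_of_le_ne_top (measure_closedBall_lt_top (x := (0 : E n)) (r := 2 * ρ)).ne (measure_mono ?_)
  intro x hx
  rw [mem_closedBall_zero_iff]
  rw [mem_setOf_eq] at hx
  linarith [hn x]

/-! ## averages -/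

theorem ind_Bw (hw : Continuous w) (μ : Measure (E n)) (r : ℝ) (h : E n → ℝ≥0∞) (u : E n) :
    ∫⁻ x in Bw w u r, h x ∂μ =
      ∫⁻ x, {z : E n × E n | w (z.2 - z.1) ≤ r}.indicator (fun z => h z.2) (u, x) ∂μ := by
  rw [← lintegral_indicator (Bw_closed w hw u r).measurableSet]
  refine lintegral_congr fun x => ?_
  by_cases hx : w (x - u) ≤ r
  · rw [indicator_of_mem ((Bw_iff w x u r).2 hx), indicator_of_mem
      (show (u, x) ∈ {z : E n × E n | w (z.2 - z.1) ≤ r} from hx)]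
  · rw [indicator_of_notMem (fun h' => hx ((Bw_iff w x u r).1 h')), indicator_of_notMem
      (show (u, x) ∉ {z : E n × E n | w (z.2 - z.1) ≤ r} from hx)]

theorem Bw_jm (hw : Continuous w) (r : ℝ) (h : E n → ℝ≥0∞) (hh : Measurable h) :
    Measurable ({z : E n × E n | w (z.2 - z.1) ≤ r}.indicator (fun z => h z.2)) :=
  (hh.comp measurable_snd).indicator (measurableSet_le
    (hw.measurable.comp (measurable_snd.sub measurable_fst)) measurable_const)

theorem meas_Bw (hw : Continuous w) (μ : Measure (E n)) [SFinite μ] (r : ℝ) (h : E n → ℝ≥0∞)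
    (hh : Measurable h) : Measurable fun u : E n => ∫⁻ x in Bw w u r, h x ∂μ := by
  simp only [ind_Bw w hw]
  exact Measurable.lintegral_prod_right' (Bw_jm w hw r h hh)

/-- averaging over balls -/
theorem avg_Bw (hw : Continuous w) (μ : Measure (E n)) [SFinite μ] (r : ℝ) (h : E n → ℝ≥0∞)
    (hh : Measurable h) :
    ∫⁻ u : E n, (∫⁻ x in Bw w u r, h x ∂μ) = vw w r * ∫⁻ x, h x ∂μ := by
  simp only [ind_Bw w hw]
  have hsw := lintegral_lintegral_swap (μ := (volume : Measure (E n)))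
    (ν := μ) (f := fun u x => {z : E n × E n | w (z.2 - z.1) ≤ r}.indicator
      (fun z => h z.2) (u, x)) (Bw_jm w hw r h hh).aemeasurable
  rw [hsw, ← lintegral_const_mul _ hh]
  refine lintegral_congr fun x => ?_
  have e2 : ∀ u : E n, {z : E n × E n | w (z.2 - z.1) ≤ r}.indicator (fun z => h z.2) (u, x) =
      (Bw w x r).indicator (fun _ => h x) u := by
    intro u
    by_cases hx : w (x - u) ≤ r
    · rw [indicator_of_mem ((Bw_iff w u x r).2 (by rw [map_sub_rev]; exact hx)),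
        indicator_of_mem (show (u, x) ∈ {z : E n × E n | w (z.2 - z.1) ≤ r} from hx)]
    · rw [indicator_of_notMem (show u ∉ Bw w x r from
          fun h' => hx (by rw [map_sub_rev]; exact (Bw_iff w u x r).1 h')), indicator_of_notMem
        (show (u, x) ∉ {z : E n × E n | w (z.2 - z.1) ≤ r} from hx)]
  simp only [e2]
  rw [lintegral_indicator (Bw_closed w hw x r).measurableSet, setLIntegral_const, mul_comm]
  congr 1
  unfold vw
  have h1 : Bw w x r = (fun u => u - x) ⁻¹' {y : E n | w y ≤ r} := rfl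
  rw [h1]
  exact (measurePreserving_sub_right (volume : Measure (E n)) x).measure_preimage
    (measurableSet_le hw.measurable measurable_const).nullMeasurableSet

/-! ## kernels -/

/-- far part of the kernel -/
noncomputable def kw (q : E n → ℂ) (ρ : ℝ) : E n → ℝ≥0∞ :=
  {x : E n | ρ < w x}.indicator fun x => ‖𝓕 q x‖ₑ

theorem Tm_jm {q : E n → ℂ} (hq : Integrable q) {f : E n → ℂ} (hf : Measurable f)
    (μ : Measure (E n)) [SFinite μ] : Measurable fun x => Tm q f μ x := by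
  have hm : Measurable fun z : E n × E n => 𝓕 q (z.1 - z.2) * f z.2 :=
    ((four_cont hq).measurable.comp (measurable_fst.sub measurable_snd)).mul (hf.comp measurable_snd)
  exact (hm.stronglyMeasurable.integral_prod_right' (ν := μ)).measurable

/-- splitting into near and far parts -/
theorem splitw (hw : Continuous w) (q f : E n → ℂ) (μ : Measure (E n)) (u x : E n) (ρ : ℝ)
    (hx : x ∈ Bw w u ρ) :
    ‖Tm q f μ x‖ₑ ≤ ‖Tm q ((Bw w u (2 * ρ)).indicator f) μ x‖ₑ +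
      ∫⁻ y, kw w q ρ (x - y) * ‖f y‖ₑ ∂μ := by
  by_cases hi : Integrable (fun y : E n => 𝓕 q (x - y) * f y) μ
  · set B := Bw w u (2 * ρ) with hB
    have hBm : MeasurableSet B := (Bw_closed w hw _ _).measurableSet
    have e1 : Tm q f μ x = Tm q (B.indicator f) μ x +
        ∫ y in Bᶜ, 𝓕 q (x - y) * f y ∂μ := by
      unfold Tm
      have e2 : ∫ y, 𝓕 q (x - y) * B.indicator f y ∂μ = ∫ y in B, 𝓕 q (x - y) * f y ∂μ := by
        rw [← integral_indicator hBm]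
        congr 1; funext y
        by_cases hy : y ∈ B
        · rw [indicator_of_mem hy, indicator_of_mem hy]
        · rw [indicator_of_notMem hy, indicator_of_notMem hy, mul_zero]
      rw [e2, integral_add_compl hBm hi]
    rw [e1]
    refine (enorm_add_le _ _).trans (add_le_add le_rfl ?_)
    refine (enorm_integral_le_lintegral_enorm _).trans ?_
    rw [← lintegral_indicator hBm.compl]
    refine lintegral_mono fun y => ?_
    by_cases hy : y ∈ Bᶜ
    · rw [indicator_of_mem hy, enorm_mul]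
      have h1 : ρ < w (x - y) := by
        have h2 : ¬ (w (y - u) ≤ 2 * ρ) := fun h => hy ((Bw_iff w _ _ _).2 h)
        push Not at h2
        have h3 : w (x - u) ≤ ρ := (Bw_iff w _ _ _).1 hx
        have h4 : w (y - u) ≤ w (y - x) + w (x - u) := by
          have := map_add_le_add w (y - x) (x - u)
          rwa [sub_add_sub_cancel] at this
        rw [map_sub_rev w y x] at h4
        linarith
      unfold kw
      rw [indicator_of_mem (show x - y ∈ {z : E n | ρ < w z} from h1)]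
    · rw [indicator_of_notMem hy]; exact zero_le
  · have : Tm q f μ x = 0 := integral_undef hi
    rw [this, enorm_zero]; exact zero_le

end

/-- tails of the kernels -/
theorem tailw {n : ℕ} {ε : ℝ} (hε : 0 < ε) (M : ℝ) : ∃ N : ℕ, ∀ C₀ : ℝ, 0 < C₀ → ∀ A : ℝ, 1 ≤ A →
    ∀ w : Seminorm ℝ (E n), (∀ x, ‖x‖ ≤ 2 * w x) →
    ∀ q : E n → ℂ, (∀ x, (w x) ^ N * ‖𝓕 q x‖ ≤ C₀ * A ^ N) →
    ∀ x : E n, A ^ (1 + ε) ≤ w x → ‖𝓕 q x‖ ≤ C₀ * 3 ^ (n + 1) * A ^ (-M) * Jw x := by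
  obtain ⟨N, hN⟩ := exists_nat_ge (max ((M + ((n : ℝ) + 1) * (1 + ε)) / ε) (-M))
  have hN1 : (M + ((n : ℝ) + 1) * (1 + ε)) / ε ≤ N := (le_max_left _ _).trans hN
  have hN2 : -M ≤ N := (le_max_right _ _).trans hN
  refine ⟨N, fun C₀ hC A hA w hnw q hb x hw => ?_⟩
  have hA0 : 0 < A := by linarith
  set b : ℝ := w x with hbd
  have h1w : 1 ≤ b := le_trans (Real.one_le_rpow hA (by linarith)) hw
  have hw0 : 0 < b := by linarith
  have hAw : A ≤ b ^ (1 / (1 + ε)) := by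
    have := Real.rpow_le_rpow (by positivity) hw (show 0 ≤ 1 / (1 + ε) by positivity)
    rwa [← Real.rpow_mul hA0.le, mul_one_div, div_self (by positivity), Real.rpow_one] at this
  have h2 : A ^ ((N : ℝ) + M) ≤ b ^ ((N : ℝ) - ((n : ℝ) + 1)) := by
    calc A ^ ((N : ℝ) + M) ≤ (b ^ (1 / (1 + ε))) ^ ((N : ℝ) + M) :=
          Real.rpow_le_rpow hA0.le hAw (by linarith)
      _ = b ^ (((N : ℝ) + M) / (1 + ε)) := by
        rw [← Real.rpow_mul hw0.le]; congr 1; ring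
      _ ≤ _ := by
        refine Real.rpow_le_rpow_of_exponent_le h1w ?_
        rw [div_le_iff₀ (by positivity)]
        rw [div_le_iff₀ hε] at hN1
        nlinarith
  have h3 : b ^ N * ‖𝓕 q x‖ ≤ C₀ * A ^ N := hb x
  have h4 : ‖𝓕 q x‖ ≤ C₀ * A ^ (-M) * b ^ (-((n : ℝ) + 1)) := by
    have h5 : ‖𝓕 q x‖ ≤ C₀ * A ^ N / b ^ N := by
      rw [le_div_iff₀ (by positivity), mul_comm]; exact h3
    refine h5.trans ?_
    rw [div_le_iff₀ (by positivity)]
    have h6 : C₀ * A ^ (-M) * b ^ (-((n : ℝ) + 1)) * b ^ N =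
        C₀ * (A ^ (-M) * b ^ ((N : ℝ) - ((n : ℝ) + 1))) := by
      rw [Real.rpow_sub hw0, Real.rpow_neg hw0.le, Real.rpow_natCast]
      ring
    rw [h6]
    refine mul_le_mul_of_nonneg_left ?_ hC.le
    calc A ^ N = A ^ (-M) * A ^ ((N : ℝ) + M) := by
          rw [← Real.rpow_add hA0, ← Real.rpow_natCast]; congr 1; ring
      _ ≤ _ := by gcongr
  refine h4.trans ?_
  have h7 : b ^ (-((n : ℝ) + 1)) ≤ 3 ^ (n + 1) * Jw x := by
    unfold Jw
    have h8 : 1 + ‖x‖ ≤ 3 * b := by linarith [hnw x]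
    have e1 : ((n : ℝ) + 1) = ((n + 1 : ℕ) : ℝ) := by push_cast; ring
    rw [e1, Real.rpow_neg hw0.le, Real.rpow_neg (by positivity), Real.rpow_natCast, Real.rpow_natCast,
      ← div_eq_mul_inv, le_div_iff₀ (by positivity), inv_mul_le_iff₀ (by positivity), ← mul_pow, mul_comm b 3]
    exact pow_le_pow_left₀ (by positivity) h8 _
  calc C₀ * A ^ (-M) * b ^ (-((n : ℝ) + 1)) ≤ C₀ * A ^ (-M) * (3 ^ (n + 1) * Jw x) :=
        mul_le_mul_of_nonneg_left h7 (by positivity)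
    _ = _ := by ring

theorem t_gm (n : ℕ) : S_GM n := by
  intro p ε M D hp hε hD
  have hp0 : 0 < p := by linarith
  obtain ⟨N, hN⟩ := tailw (n := n) hε (M / p)
  refine ⟨N, fun C₀ hC₀ => ?_⟩
  refine ⟨(C₀ * 3 ^ (n + 1)) ^ p * (D * 2 ^ (n + 1)) ^ p, by positivity,
    fun μ₁ μ₂ hμ₁ hμ₂ A hA w hw hnw q hq hdec D₁ hD₁ hloc f hff => ?_⟩
  have hf : Measurable f := hff.1
  have hb := hN C₀ hC₀ A hA w hnw q hdec
  have hs1 := sigmaC hμ₁
  have hs2 := sigmaC hμ₂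
  have hA0 : 0 < A := by linarith
  set C0 : ℝ := C₀ * 3 ^ (n + 1) with hC0d
  have hC0 : 0 < C0 := by positivity
  set ρ : ℝ := A ^ (1 + ε) with hρd
  have hρ : 0 < ρ := by positivity
  set Φ : E n → ℝ≥0∞ := fun x => ∫⁻ y, ENNReal.ofReal (Jw (x - y)) * ‖f y‖ₑ ∂μ₁ with hΦ
  have hΦm : Measurable Φ := by
    refine Measurable.lintegral_prod_right' (f := fun z : E n × E n =>
      ENNReal.ofReal (Jw (z.1 - z.2)) * ‖f z.2‖ₑ) ?_
    exact ((Jw_cont.measurable.comp (measurable_fst.sub measurable_snd)).ennreal_ofReal).mul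
      (hf.comp measurable_snd).enorm
  set c : ℝ≥0∞ := ENNReal.ofReal (C0 * A ^ (-(M / p))) with hc
  have hct : c ^ p ≠ ∞ := ENNReal.rpow_ne_top_of_nonneg hp0.le ENNReal.ofReal_ne_top
  have hTm : Measurable fun x => Tm q f μ₁ x := Tm_jm hq hf μ₁
  -- on each ball
  have hball : ∀ u : E n, ∫⁻ x in Bw w u ρ, ‖Tm q f μ₁ x‖ₑ ^ p ∂μ₂ ≤
      2 ^ (p - 1) * (ENNReal.ofReal D₁ * (∫⁻ x in Bw w u (2 * ρ), ‖f x‖ₑ ^ p ∂μ₁) +
        c ^ p * ∫⁻ x in Bw w u ρ, Φ x ^ p ∂μ₂) := by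
    intro u
    have hBm : MeasurableSet (Bw w u (2 * ρ)) := (Bw_closed w hw _ _).measurableSet
    have hBB : BB ((Bw w u (2 * ρ)).indicator f) := by
      obtain ⟨M', hM'⟩ := hff.2.1
      obtain ⟨r', hr'⟩ := hff.2.2
      refine ⟨hf.indicator hBm, ⟨M', fun x => ?_⟩, r', fun x hx => ?_⟩
      · refine le_trans ?_ (hM' x)
        exact norm_indicator_le_norm_self _ _
      · by_cases h : x ∈ Bw w u (2 * ρ)
        · rw [indicator_of_mem h]; exact hr' x hx
        · rw [indicator_of_notMem h]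
    have h1 := hloc u ((Bw w u (2 * ρ)).indicator f) hBB
      (fun x hx => indicator_of_notMem (fun h => absurd ((Bw_iff w _ _ _).1 h) (not_le.2 hx)) _)
    have e1 : ∫⁻ x, ‖(Bw w u (2 * ρ)).indicator f x‖ₑ ^ p ∂μ₁ =
        ∫⁻ x in Bw w u (2 * ρ), ‖f x‖ₑ ^ p ∂μ₁ := by
      rw [← lintegral_indicator hBm]
      refine lintegral_congr fun x => ?_
      by_cases hx : x ∈ Bw w u (2 * ρ)
      · rw [indicator_of_mem hx, indicator_of_mem hx]
      · rw [indicator_of_notMem hx, indicator_of_notMem hx, enorm_zero,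
          ENNReal.zero_rpow_of_pos hp0]
    rw [e1] at h1
    calc ∫⁻ x in Bw w u ρ, ‖Tm q f μ₁ x‖ₑ ^ p ∂μ₂
        ≤ 2 ^ (p - 1) * ((∫⁻ x in Bw w u ρ,
            ‖Tm q ((Bw w u (2 * ρ)).indicator f) μ₁ x‖ₑ ^ p ∂μ₂) +
            ∫⁻ x in Bw w u ρ, c ^ p * Φ x ^ p ∂μ₂) := by
          rw [← lintegral_add_right _ ((hΦm.pow_const _).const_mul _), ← lintegral_const_mul' _ _
            (ENNReal.rpow_ne_top_of_nonneg (by linarith) (by norm_num))]
          refine setLIntegral_mono' (Bw_closed w hw _ _).measurableSet fun x hx => ?_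
          have h2 : ∫⁻ y, kw w q ρ (x - y) * ‖f y‖ₑ ∂μ₁ ≤ c * Φ x := by
            rw [hΦ, ← lintegral_const_mul' _ _ ENNReal.ofReal_ne_top]
            refine lintegral_mono fun y => ?_
            rw [← mul_assoc]
            refine mul_le_mul' ?_ le_rfl
            unfold kw
            by_cases hwx : x - y ∈ {z : E n | ρ < w z}
            · rw [indicator_of_mem hwx, ← ofReal_norm, ← ENNReal.ofReal_mul (by positivity)]
              exact ENNReal.ofReal_le_ofReal (hb (x - y) (le_of_lt hwx))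
            · rw [indicator_of_notMem hwx]; exact zero_le
          have h3 := (splitw w hw q f μ₁ u x ρ hx).trans (add_le_add le_rfl h2)
          refine (ENNReal.rpow_le_rpow h3 hp0.le).trans ?_
          refine (ENNReal.rpow_add_le_mul_rpow_add_rpow _ _ hp).trans ?_
          rw [ENNReal.mul_rpow_of_nonneg _ _ hp0.le]
      _ = 2 ^ (p - 1) * ((∫⁻ x in Bw w u ρ,
            ‖Tm q ((Bw w u (2 * ρ)).indicator f) μ₁ x‖ₑ ^ p ∂μ₂) +
            c ^ p * ∫⁻ x in Bw w u ρ, Φ x ^ p ∂μ₂) := by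
          rw [lintegral_const_mul' _ _ hct]
      _ ≤ _ := by
          gcongr
          exact h1
  -- integrate over the centres
  have hint := lintegral_mono (μ := (volume : Measure (E n))) hball
  have hfm : Measurable fun x => ‖f x‖ₑ ^ p := hf.enorm.pow_const _
  rw [lintegral_const_mul' _ _ (ENNReal.rpow_ne_top_of_nonneg (by linarith) (by norm_num)),
    lintegral_add_left ((meas_Bw w hw μ₁ _ _ hfm).const_mul _),
    lintegral_const_mul _ (meas_Bw w hw μ₁ _ _ hfm),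
    lintegral_const_mul' _ _ hct,
    avg_Bw w hw μ₂ ρ _ (hTm.enorm.pow_const _), avg_Bw w hw μ₂ ρ _ (hΦm.pow_const p),
    avg_Bw w hw μ₁ (2 * ρ) _ hfm, vw_two] at hint
  have h3 : vw w ρ * ∫⁻ x, ‖Tm q f μ₁ x‖ₑ ^ p ∂μ₂ ≤
      vw w ρ * (2 ^ (p - 1) * (ENNReal.ofReal D₁ * (ENNReal.ofReal (2 ^ n) *
        ∫⁻ x, ‖f x‖ₑ ^ p ∂μ₁) + c ^ p * ∫⁻ x, Φ x ^ p ∂μ₂)) := by
    refine hint.trans (le_of_eq ?_)
    ring
  have h4 := (ENNReal.mul_le_mul_iff_right (vw_ne_zero w hw hρ) (vw_ne_top w hnw)).1 h3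
  refine h4.trans ?_
  have h5 : ∫⁻ x, Φ x ^ p ∂μ₂ ≤ ENNReal.ofReal ((D * 2 ^ (n + 1)) ^ p) *
      ∫⁻ x, ‖f x‖ₑ ^ p ∂μ₁ := schur2 hD hμ₁ hμ₂ _ hf.enorm p hp
  have h6 : c ^ p = ENNReal.ofReal (C0 ^ p * A ^ (-M)) := by
    rw [hc, ENNReal.ofReal_rpow_of_nonneg (by positivity) hp0.le]
    congr 1
    rw [Real.mul_rpow hC0.le (by positivity), ← Real.rpow_mul hA0.le]
    congr 2
    field_simp
  calc 2 ^ (p - 1) * (ENNReal.ofReal D₁ * (ENNReal.ofReal (2 ^ n) * ∫⁻ x, ‖f x‖ₑ ^ p ∂μ₁) +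
        c ^ p * ∫⁻ x, Φ x ^ p ∂μ₂)
      ≤ 2 ^ (p - 1) * (ENNReal.ofReal D₁ * (ENNReal.ofReal (2 ^ n) * ∫⁻ x, ‖f x‖ₑ ^ p ∂μ₁) +
        c ^ p * (ENNReal.ofReal ((D * 2 ^ (n + 1)) ^ p) * ∫⁻ x, ‖f x‖ₑ ^ p ∂μ₁)) := by
        gcongr
    _ = ENNReal.ofReal (2 ^ (p - 1)) * ((ENNReal.ofReal (2 ^ n) * ENNReal.ofReal D₁ +
          ENNReal.ofReal (C0 ^ p * A ^ (-M)) * ENNReal.ofReal ((D * 2 ^ (n + 1)) ^ p)) *
          ∫⁻ x, ‖f x‖ₑ ^ p ∂μ₁) := by
        rw [← ENNReal.ofReal_rpow_of_pos two_pos, ENNReal.ofReal_ofNat, h6]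
        ring
    _ = _ := by
        rw [← ENNReal.ofReal_mul (by positivity), ← ENNReal.ofReal_mul (by positivity),
          ← ENNReal.ofReal_add (by positivity) (by positivity), ← mul_assoc,
          ← ENNReal.ofReal_mul (by positivity)]
        congr 2
        ring

theorem t_cm (n : ℕ) : S_CM n := by
  intro ψ hψ p D hp hD
  have hp0 : 0 < p := by linarith
  obtain ⟨C0, hC0, hb⟩ := Kr_crude n hψ
  refine ⟨(C0 * 64 ^ (n + 1)) ^ p * (D * 2 ^ (n + 1)) ^ p, by positivity,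
    fun μ₁ μ₂ hμ₁ hμ₂ A hA hA4 f hff => ?_⟩
  have hf : Measurable f := hff.1
  have hA0 : 0 < A := by linarith
  set c : ℝ≥0∞ := ENNReal.ofReal (C0 * 64 ^ (n + 1)) with hc
  have hct : c ^ p ≠ ∞ := ENNReal.rpow_ne_top_of_nonneg hp0.le ENNReal.ofReal_ne_top
  have h1 : ∀ x, ‖Tm (mu ψ A 1) f μ₁ x‖ₑ ≤ c * ∫⁻ y, ENNReal.ofReal (Jw (x - y)) * ‖f y‖ₑ ∂μ₁ := by
    intro x
    rw [← lintegral_const_mul' _ _ ENNReal.ofReal_ne_top]
    unfold Tm
    refine (enorm_integral_le_lintegral_enorm _).trans (lintegral_mono fun y => ?_)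
    rw [enorm_mul, ← mul_assoc]
    refine mul_le_mul' ?_ le_rfl
    rw [← ofReal_norm, ← ENNReal.ofReal_mul (by positivity)]
    refine ENNReal.ofReal_le_ofReal ((hb A 1 hA le_rfl (by norm_num) (x - y)).trans ?_)
    have := Jw_pos (x - y)
    gcongr
  calc ∫⁻ x, ‖Tm (mu ψ A 1) f μ₁ x‖ₑ ^ p ∂μ₂
      ≤ ∫⁻ x, c ^ p * (∫⁻ y, ENNReal.ofReal (Jw (x - y)) * ‖f y‖ₑ ∂μ₁) ^ p ∂μ₂ := by
        refine lintegral_mono fun x => ?_
        rw [← ENNReal.mul_rpow_of_nonneg _ _ hp0.le]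
        exact ENNReal.rpow_le_rpow (h1 x) hp0.le
    _ = c ^ p * ∫⁻ x, (∫⁻ y, ENNReal.ofReal (Jw (x - y)) * ‖f y‖ₑ ∂μ₁) ^ p ∂μ₂ :=
        lintegral_const_mul' _ _ hct
    _ ≤ c ^ p * (ENNReal.ofReal ((D * 2 ^ (n + 1)) ^ p) * ∫⁻ y, ‖f y‖ₑ ^ p ∂μ₁) := by
        gcongr
        exact schur2 hD hμ₁ hμ₂ _ hf.enorm p hp
    _ = _ := by
        rw [hc, ENNReal.ofReal_rpow_of_nonneg (by positivity) hp0.le, ← mul_assoc,
          ← ENNReal.ofReal_mul (by positivity)]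

end Pool.Agent.Y48.FE
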